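import Mathlib

set_option autoImplicit false

namespace Pool.Agent.Results.MP_4155d9_nt.Yes

open Finset Filter Topology PowerSeries

/-- `p A n k` is the coefficient of `x ^ n` in `∏_{i < k} (1 + x ^ A i + x ^ (2 * A i) + ⋯)`. -/
noncomputable def p (A : ℕ → ℕ) (n k : ℕ) : ℕ :=
  coeff n (∏ i ∈ range k, (mk fun m => if A i ∣ m then 1 else 0 : ℕ⟦X⟧))

/-- The sequence `1, 2 ^ t, 2 ^ t, 2 ^ (t + 1), 2 ^ (t + 2), …`. -/
def A (t i : ℕ) : ℕ := if i = 0 then 1 else 2 ^ (t + (i - 2))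

noncomputable def G (a : ℕ) : (ZMod 2)⟦X⟧ := mk fun m => if a ∣ m then 1 else 0

lemma G1 (a : ℕ) (ha : a ≠ 0) : G a * (1 - X ^ a) = 1 := by
  have e : G a = expand a ha (mk 1) := by
    ext n; rw [coeff_expand, G, coeff_mk, coeff_mk]; rfl
  rw [e, ← expand_X a ha, ← map_one (expand a ha), ← map_sub, ← map_mul,
    mk_one_mul_one_sub_eq_one]

lemma G2 (a : ℕ) (ha : a ≠ 0) : G a * G a = G (a * 2) := by
  have h1 := G1 a ha
  have h2 := G1 (a * 2) (by omega)
  have z : (2 : (ZMod 2)⟦X⟧) = 0 := by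
    rw [show (2 : (ZMod 2)⟦X⟧) = C (2 : ZMod 2) from (map_ofNat C 2).symm,
      show (2 : ZMod 2) = 0 from rfl, map_zero]
  rw [pow_mul] at h2
  generalize G (a * 2) = E at *
  generalize (X : (ZMod 2)⟦X⟧) ^ a = y at *
  generalize G a = F at *
  linear_combination (-F * F) * h2 + E * (F * (1 - y) + 1) * h1 + E * F * F * (y - y ^ 2) * z

lemma prodG (t k : ℕ) : ∏ i ∈ range (k + 2), G (A t i) = G 1 * G (2 ^ (t + k)) := by
  induction k with
  | zero => simp [prod_range_succ, A]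
  | succ k ih =>
    rw [show k + 1 + 2 = k + 2 + 1 by ring, prod_range_succ, ih, A, if_neg (by omega),
      Nat.add_sub_cancel, mul_assoc, G2 _ (by positivity), ← add_assoc, pow_succ]

lemma flip (t k n : ℕ) :
    Odd (p (A t) (n + 2 ^ (t + k)) (k + 2)) ↔ ¬ Odd (p (A t) n (k + 2)) := by
  have e : ∀ n, ((p (A t) n (k + 2) : ℕ) : ZMod 2) = coeff n (G 1 * G (2 ^ (t + k))) := by
    intro n
    rw [← prodG, p, ← eq_natCast (Nat.castRingHom (ZMod 2)), ← coeff_map, map_prod]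
    congr 1
    refine prod_congr rfl fun i _ => ?_
    ext m; simp [G]
  have h := congrArg (fun F => coeff (n + 2 ^ (t + k)) (G 1 * F)) (G1 (2 ^ (t + k)) (by positivity))
  simp only [← mul_assoc, mul_sub, mul_one, map_sub, coeff_mul_X_pow, ← e] at h
  rw [G, coeff_mk, if_pos (one_dvd _)] at h
  rw [← ZMod.natCast_eq_one_iff_odd, ← ZMod.natCast_eq_one_iff_odd]
  revert h
  generalize ((p (A t) (n + 2 ^ (t + k)) (k + 2) : ℕ) : ZMod 2) = a
  generalize ((p (A t) n (k + 2) : ℕ) : ZMod 2) = b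
  revert a b; decide

theorem result : Function.Injective A ∧ ∀ t, (∀ i, 0 < A t i) ∧ (∀ d, (∀ i, d ∣ A t i) → d = 1) ∧
    ∀ k, 2 ≤ k → Tendsto (fun N : ℕ => (#{n ∈ range (N + 1) | Odd (p (A t) n k)} : ℝ) / N)
      atTop (𝓝 (1 / 2)) := by
  refine ⟨fun s t h => by simpa [A] using congrFun h 1, fun t => ⟨fun i => ?_,
    fun d h => by simpa [A] using h 0, fun k hk => ?_⟩⟩
  · unfold A; split_ifs <;> positivity
  obtain ⟨k, rfl⟩ : ∃ j, k = j + 2 := ⟨k - 2, by omega⟩
  have fl := flip t k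
  generalize 2 ^ (t + k) = M at fl
  simp only [← Nat.count_eq_card_filter_range]
  set f := Nat.count fun n => Odd (p (A t) n (k + 2)) with hf
  have a : ∀ N, f (N + M) + f N = N + f M := by
    intro N
    induction N with
    | zero => simp [hf]
    | succ N ih =>
      rw [show N + 1 + M = N + M + 1 by ring, hf, Nat.count_succ, Nat.count_succ, ← hf]
      by_cases c : Odd (p (A t) N (k + 2))
      · rw [if_pos c, if_neg (fun d => (fl N).1 d c)]; omega
      · rw [if_neg c, if_pos ((fl N).2 c)]; omega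
  have b : ∀ N, 2 * f N ≤ N + M ∧ N ≤ 2 * f N + M := by
    intro N
    have h1 := a N
    have h2 : f M ≤ M := Nat.count_le _
    have h3 : f (N + M) = f N + _ := Nat.count_add _ N M
    have h4 : f (N + M) ≤ f N + M := h3.trans_le (Nat.add_le_add_left (Nat.count_le _) _)
    omega
  have l : ∀ c : ℝ, Tendsto (fun N : ℕ => 1 / 2 + c / N) atTop (𝓝 (1 / 2)) := fun c => by
    have := (tendsto_const_div_atTop_nhds_zero_nat c).const_add (1 / 2 : ℝ)
    rwa [add_zero] at this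
  refine tendsto_of_tendsto_of_tendsto_of_le_of_le' (l (-M)) (l (M + 1)) ?_ ?_ <;>
    filter_upwards [eventually_gt_atTop 0] with N hN
  · have h : ((N + 1 : ℕ) : ℝ) ≤ (2 * f (N + 1) + M : ℕ) := Nat.cast_le.2 (b (N + 1)).2
    have : (0 : ℝ) < N := by exact_mod_cast hN
    have m : (0 : ℝ) ≤ M := Nat.cast_nonneg _
    rw [le_div_iff₀ this, add_mul, div_mul_cancel₀ _ this.ne']; push_cast at h; linarith
  · have h : ((2 * f (N + 1) : ℕ) : ℝ) ≤ (N + 1 + M : ℕ) := Nat.cast_le.2 (b (N + 1)).1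
    have : (0 : ℝ) < N := by exact_mod_cast hN
    have m : (0 : ℝ) ≤ M := Nat.cast_nonneg _
    rw [div_le_iff₀ this, add_mul, div_mul_cancel₀ _ this.ne']; push_cast at h; linarith

end Pool.Agent.Results.MP_4155d9_nt.Yes
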